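import Mathlib

/-!
A topologically mixing subshift over `ℤ` which is not surjunctive.
-/

namespace Pool.Agent.Results.MP_451208_an.NotSurjunctive

open Set Topology

/-! ### The notions of the problem -/

/-- The shift `σ(x)_n = x_{n+1}`. -/
def shift {A : Type} (x : ℤ → A) : ℤ → A := fun n => x (n + 1)

/-- A subshift over `ℤ`: a closed set with `σ(X) = X`. -/
def IsSubshift {A : Type} [TopologicalSpace A] (X : Set (ℤ → A)) : Prop :=
  IsClosed X ∧ shift '' X = X

/-- Topological mixing: for all nonempty relatively open `U ∩ X` and `V ∩ X` of `X` there is `N`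
with `σ^n (U ∩ X) ∩ (V ∩ X) ≠ ∅` for all `n ≥ N`. -/
def IsMixing {A : Type} [TopologicalSpace A] (X : Set (ℤ → A)) : Prop :=
  ∀ U V : Set (ℤ → A), IsOpen U → IsOpen V → (U ∩ X).Nonempty → (V ∩ X).Nonempty →
    ∃ N : ℕ, ∀ n : ℕ, N ≤ n → ((shift^[n] '' (U ∩ X)) ∩ (V ∩ X)).Nonempty

/-- A cellular automaton on `X`: a continuous self map of `X` commuting with the shift. -/
def IsCellularAutomaton {A : Type} [TopologicalSpace A] (X : Set (ℤ → A)) (τ : X → X) : Prop :=
  Continuous τ ∧ ∀ x y : X, (y : ℤ → A) = shift (x : ℤ → A) →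
    ((τ y : X) : ℤ → A) = shift ((τ x : X) : ℤ → A)

/-- Surjunctivity: every injective cellular automaton on `X` is surjective. -/
def IsSurjunctive {A : Type} [TopologicalSpace A] (X : Set (ℤ → A)) : Prop :=
  ∀ τ : X → X, IsCellularAutomaton X τ → Function.Injective τ → Function.Surjective τ

/-! ### The automaton -/

/-- Cell states: a static symbol (`0` vacuum, `1` wall, `2` and `3` trail), a front bit, a fast
signal bit and a backward signal bit. -/
abbrev St : Type := Fin 4 × Bool × Bool × Bool

/-- The quiescent state. -/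
def z0 : St := (0, false, false, false)

/-- The cellwise map. -/
def phi : St → St
  | (0, true, false, c) => (2, true, false, c)
  | (0, true, true, false) => (3, true, false, false)
  | (1, true, false, false) => (2, false, true, true)
  | x => x

/-- The allowed moved cells. -/
def ok : St → Bool
  | (_, false, false, _) => true
  | (2, false, true, false) => true
  | (3, false, true, false) => true
  | (0, true, false, _) => true
  | (0, true, true, false) => true
  | (1, true, false, false) => true
  | _ => false

theorem phi_inj : ∀ u v : St, ok u = true → ok v = true → phi u = phi v → u = v := by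
  decide

theorem phi_ne : ∀ u : St, ok u = true → phi u ≠ (1, true, false, false) := by
  decide

/-- The moved configuration: fronts move by `1` to the right, fast signals by `2` to the right,
backward signals by `1` to the left. -/
def mv (x : ℤ → St) : ℤ → St := fun i =>
  ((x i).1, (x (i - 1)).2.1, (x (i - 2)).2.2.1, (x (i + 1)).2.2.2)

/-- The cellular automaton on all configurations. -/
def tau (x : ℤ → St) : ℤ → St := fun i => phi (mv x i)

/-- All moved cells are allowed. -/
def Dom (x : ℤ → St) : Prop := ∀ i, ok (mv x i) = true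

/-! ### Complete configurations and the three phases -/

/-- One object: wall at `p`, trail up to the front at `q`; no fast signal; backward signals only
at cells `≤ m`. -/
structure K3 (x : ℤ → St) (p q m : ℤ) : Prop where
  pq : p ≤ q
  sL : ∀ i, i < p → (x i).1 = 0
  sW : (x p).1 = 1
  sT : ∀ i, p < i → i ≤ q → (x i).1 = 2 ∨ (x i).1 = 3
  sR : ∀ i, q < i → (x i).1 = 0
  fr : ∀ i, (x i).2.1 = decide (i = q)
  fa : ∀ i, (x i).2.2.1 = false
  ba : ∀ i, m < i → (x i).2.2.2 = false

/-- One object with a fast signal at `r` on its way to the front. -/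
structure K2 (x : ℤ → St) (p r q : ℤ) : Prop where
  pr : p < r
  rq : r < q
  sL : ∀ i, i < p → (x i).1 = 0
  sW : (x p).1 = 1
  sT : ∀ i, p < i → i ≤ q → (x i).1 = 2 ∨ (x i).1 = 3
  sR : ∀ i, q < i → (x i).1 = 0
  fr : ∀ i, (x i).2.1 = decide (i = q)
  fa : ∀ i, (x i).2.2.1 = decide (i = r)
  ba : ∀ i, r < i → (x i).2.2.2 = false

/-- Two objects. -/
structure K1 (x : ℤ → St) (p q p' q' : ℤ) : Prop where
  pq : p ≤ q
  qp : q < p'
  pq' : p' ≤ q'
  sL : ∀ i, i < p → (x i).1 = 0
  sW : (x p).1 = 1
  sT : ∀ i, p < i → i ≤ q → (x i).1 = 2 ∨ (x i).1 = 3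
  sM : ∀ i, q < i → i < p' → (x i).1 = 0
  sW' : (x p').1 = 1
  sT' : ∀ i, p' < i → i ≤ q' → (x i).1 = 2 ∨ (x i).1 = 3
  sR : ∀ i, q' < i → (x i).1 = 0
  fr : ∀ i, (x i).2.1 = (decide (i = q) || decide (i = q'))
  fa : ∀ i, (x i).2.2.1 = false
  ba : ∀ i, p' ≤ i → (x i).2.2.2 = false

/-- Complete configurations. -/
def Complete (x : ℤ → St) : Prop := ∃ p q, K3 x p q (p - 1)

/-- Good with delay `T`: allowed during `T` steps and complete after them. -/
def Good : ℕ → (ℤ → St) → Prop
  | 0, x => Complete x
  | T + 1, x => Dom x ∧ Good T (tau x)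

theorem mv_eq (x : ℤ → St) (i : ℤ) :
    mv x i = ((x i).1, (x (i - 1)).2.1, (x (i - 2)).2.2.1, (x (i + 1)).2.2.2) := rfl

theorem tau_eq (x : ℤ → St) (i : ℤ) :
    tau x i = phi ((x i).1, (x (i - 1)).2.1, (x (i - 2)).2.2.1, (x (i + 1)).2.2.2) := rfl

theorem ok_ff : ∀ (s : Fin 4) (c : Bool), ok (s, false, false, c) = true := by decide
theorem ok_tf : ∀ (c : Bool), ok (0, true, false, c) = true := by decide
theorem ok_tr : ∀ s : Fin 4, s = 2 ∨ s = 3 → ok (s, false, true, false) = true := by decide

theorem phi_ff : ∀ (s : Fin 4) (c : Bool), phi (s, false, false, c) = (s, false, false, c) := by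
  decide
theorem phi_tf : ∀ (c : Bool), phi (0, true, false, c) = (2, true, false, c) := by decide
theorem phi_tr : ∀ s : Fin 4, s = 2 ∨ s = 3 →
    phi (s, false, true, false) = (s, false, true, false) := by decide

theorem K3.dom {x : ℤ → St} {p q m : ℤ} (h : K3 x p q m) : Dom x := by
  intro i
  rw [mv_eq, h.fr, h.fa]
  by_cases hi : i - 1 = q
  · rw [h.sR i (by omega)]
    simp only [hi, decide_true]
    exact ok_tf _
  · simp only [hi, decide_false]
    exact ok_ff _ _

theorem K3.step {x : ℤ → St} {p q m : ℤ} (h : K3 x p q m) : K3 (tau x) p (q + 1) (m - 1) := by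
  have e1 : ∀ i, i ≠ q + 1 → tau x i = ((x i).1, false, false, (x (i + 1)).2.2.2) := by
    intro i hi
    have h1 : ¬ (i - 1 = q) := by omega
    rw [tau_eq, h.fr, h.fa]
    simp only [h1, decide_false]
    exact phi_ff _ _
  have e2 : tau x (q + 1) = (2, true, false, (x (q + 1 + 1)).2.2.2) := by
    have h1 : q + 1 - 1 = q := by omega
    rw [tau_eq, h.fr, h.fa, h.sR (q + 1) (by omega)]
    simp only [h1, decide_true]
    exact phi_tf _
  have := h.pq
  refine ⟨by omega, ?_, ?_, ?_, ?_, ?_, ?_, ?_⟩
  · intro i hi
    rw [e1 i (by omega)]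
    exact h.sL i hi
  · rw [e1 p (by omega)]
    exact h.sW
  · intro i hi hi'
    by_cases hq : i = q + 1
    · subst hq
      rw [e2]
      exact Or.inl rfl
    · rw [e1 i hq]
      exact h.sT i hi (by omega)
  · intro i hi
    rw [e1 i (by omega)]
    exact h.sR i (by omega)
  · intro i
    by_cases hq : i = q + 1
    · subst hq
      rw [e2]
      simp
    · rw [e1 i hq]
      simp [hq]
  · intro i
    by_cases hq : i = q + 1
    · subst hq
      rw [e2]
    · rw [e1 i hq]
  · intro i hi
    by_cases hq : i = q + 1
    · subst hq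
      rw [e2]
      exact h.ba _ (by omega)
    · rw [e1 i hq]
      exact h.ba _ (by omega)

theorem K2.dom {x : ℤ → St} {p r q : ℤ} (h : K2 x p r q) : Dom x := by
  have h1 := h.pr
  have h2 := h.rq
  intro i
  rw [mv_eq, h.fr, h.fa]
  by_cases hi : i - 1 = q
  · rw [h.sR i (by omega)]
    by_cases hr : i - 2 = r
    · rw [h.ba (i + 1) (by omega)]
      simp only [hi, hr, decide_true]
      rfl
    · simp only [hi, hr, decide_true, decide_false]
      exact ok_tf _
  · by_cases hr : i - 2 = r
    · rw [h.ba (i + 1) (by omega)]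
      simp only [hi, hr, decide_true, decide_false]
      exact ok_tr _ (h.sT i (by omega) (by omega))
    · simp only [hi, hr, decide_false]
      exact ok_ff _ _

theorem K2.step {x : ℤ → St} {p r q : ℤ} (h : K2 x p r q) :
    K2 (tau x) p (r + 2) (q + 1) ∨ K3 (tau x) p (q + 1) (r - 1) := by
  have h1 := h.pr
  have h2 := h.rq
  have e1 : ∀ i, i ≠ q + 1 → i ≠ r + 2 →
      tau x i = ((x i).1, false, false, (x (i + 1)).2.2.2) := by
    intro i hi hi'
    have h1 : ¬ (i - 1 = q) := by omega
    have h2 : ¬ (i - 2 = r) := by omega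
    rw [tau_eq, h.fr, h.fa]
    simp only [h1, h2, decide_false]
    exact phi_ff _ _
  by_cases hq : r + 2 = q + 1
  · right
    have e2 : tau x (q + 1) = (3, true, false, false) := by
      have h1 : q + 1 - 1 = q := by omega
      have h2 : q + 1 - 2 = r := by omega
      rw [tau_eq, h.fr, h.fa, h.sR (q + 1) (by omega), h.ba (q + 1 + 1) (by omega)]
      simp only [h1, h2, decide_true]
      rfl
    refine ⟨by omega, ?_, ?_, ?_, ?_, ?_, ?_, ?_⟩
    · intro i hi
      rw [e1 i (by omega) (by omega)]
      exact h.sL i hi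
    · rw [e1 p (by omega) (by omega)]
      exact h.sW
    · intro i hi hi'
      by_cases hq : i = q + 1
      · subst hq
        rw [e2]
        exact Or.inr rfl
      · rw [e1 i hq (by omega)]
        exact h.sT i hi (by omega)
    · intro i hi
      rw [e1 i (by omega) (by omega)]
      exact h.sR i (by omega)
    · intro i
      by_cases hq : i = q + 1
      · subst hq
        rw [e2]
        simp
      · rw [e1 i hq (by omega)]
        simp [hq]
    · intro i
      by_cases hq : i = q + 1
      · subst hq
        rw [e2]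
      · rw [e1 i hq (by omega)]
    · intro i hi
      by_cases hq : i = q + 1
      · subst hq
        rw [e2]
      · rw [e1 i hq (by omega)]
        exact h.ba _ (by omega)
  · left
    have e2 : tau x (q + 1) = (2, true, false, false) := by
      have h1 : q + 1 - 1 = q := by omega
      have h2 : ¬ (q + 1 - 2 = r) := by omega
      rw [tau_eq, h.fr, h.fa, h.sR (q + 1) (by omega), h.ba (q + 1 + 1) (by omega)]
      simp only [h1, h2, decide_true, decide_false]
      rfl
    have e3 : tau x (r + 2) = ((x (r + 2)).1, false, true, false) := by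
      have h1 : ¬ (r + 2 - 1 = q) := by omega
      have h2 : r + 2 - 2 = r := by omega
      rw [tau_eq, h.fr, h.fa, h.ba (r + 2 + 1) (by omega)]
      simp only [h1, h2, decide_true, decide_false]
      exact phi_tr _ (h.sT _ (by omega) (by omega))
    refine ⟨by omega, by omega, ?_, ?_, ?_, ?_, ?_, ?_, ?_⟩
    · intro i hi
      rw [e1 i (by omega) (by omega)]
      exact h.sL i hi
    · rw [e1 p (by omega) (by omega)]
      exact h.sW
    · intro i hi hi'
      by_cases hq : i = q + 1
      · subst hq
        rw [e2]
        exact Or.inl rfl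
      · by_cases hr : i = r + 2
        · subst hr
          rw [e3]
          exact h.sT _ (by omega) (by omega)
        · rw [e1 i hq hr]
          exact h.sT i hi (by omega)
    · intro i hi
      rw [e1 i (by omega) (by omega)]
      exact h.sR i (by omega)
    · intro i
      by_cases hq : i = q + 1
      · subst hq
        rw [e2]
        simp
      · by_cases hr : i = r + 2
        · subst hr
          rw [e3]
          simp [hq]
        · rw [e1 i hq hr]
          simp [hq]
    · intro i
      by_cases hq : i = q + 1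
      · have hr : ¬ (i = r + 2) := by omega
        subst hq
        rw [e2]
        simp [hr]
      · by_cases hr : i = r + 2
        · subst hr
          rw [e3]
          simp
        · rw [e1 i hq hr]
          simp [hr]
    · intro i hi
      by_cases hq : i = q + 1
      · subst hq
        rw [e2]
      · rw [e1 i hq (by omega)]
        exact h.ba _ (by omega)

theorem K1.dom {x : ℤ → St} {p q p' q' : ℤ} (h : K1 x p q p' q') : Dom x := by
  have h1 := h.pq
  have h2 := h.qp
  have h3 := h.pq'
  intro i
  rw [mv_eq, h.fr, h.fa]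
  by_cases hi : i - 1 = q'
  · rw [h.sR i (by omega)]
    simp only [hi, decide_true, Bool.or_true]
    exact ok_tf _
  · by_cases hj : i - 1 = q
    · by_cases hp : i = p'
      · subst hp
        rw [h.sW', h.ba (i + 1) (by omega)]
        simp only [hj, decide_true, Bool.true_or]
        rfl
      · rw [h.sM i (by omega) (by omega)]
        simp only [hj, decide_true, Bool.true_or]
        exact ok_tf _
    · simp only [hi, hj, decide_false, Bool.or_false]
      exact ok_ff _ _

theorem K1.step {x : ℤ → St} {p q p' q' : ℤ} (h : K1 x p q p' q') :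
    (q + 1 < p' ∧ K1 (tau x) p (q + 1) p' (q' + 1)) ∨ K2 (tau x) p p' (q' + 1) := by
  have h1 := h.pq
  have h2 := h.qp
  have h3 := h.pq'
  have e1 : ∀ i, i ≠ q + 1 → i ≠ q' + 1 →
      tau x i = ((x i).1, false, false, (x (i + 1)).2.2.2) := by
    intro i hi hi'
    have h1 : ¬ (i - 1 = q) := by omega
    have h2 : ¬ (i - 1 = q') := by omega
    rw [tau_eq, h.fr, h.fa]
    simp only [h1, h2, decide_false, Bool.or_false]
    exact phi_ff _ _
  have e2 : tau x (q' + 1) = (2, true, false, (x (q' + 1 + 1)).2.2.2) := by
    have h1 : q' + 1 - 1 = q' := by omega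
    rw [tau_eq, h.fr, h.fa, h.sR (q' + 1) (by omega)]
    simp only [h1, decide_true, Bool.or_true]
    exact phi_tf _
  by_cases hq : q + 1 = p'
  · right
    have e3 : tau x p' = (2, false, true, true) := by
      have h1 : p' - 1 = q := by omega
      rw [tau_eq, h.fr, h.fa, h.sW', h.ba (p' + 1) (by omega)]
      simp only [h1, decide_true, Bool.true_or]
      rfl
    have e1' : ∀ i, i ≠ p' → i ≠ q' + 1 →
        tau x i = ((x i).1, false, false, (x (i + 1)).2.2.2) := by
      intro i hi hi'
      exact e1 i (by omega) hi'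
    refine ⟨by omega, by omega, ?_, ?_, ?_, ?_, ?_, ?_, ?_⟩
    · intro i hi
      rw [e1' i (by omega) (by omega)]
      exact h.sL i hi
    · rw [e1' p (by omega) (by omega)]
      exact h.sW
    · intro i hi hi'
      by_cases hq : i = q' + 1
      · subst hq
        rw [e2]
        exact Or.inl rfl
      · by_cases hr : i = p'
        · subst hr
          rw [e3]
          exact Or.inl rfl
        · rw [e1' i hr hq]
          by_cases hlt : i < p'
          · exact h.sT i hi (by omega)
          · exact h.sT' i (by omega) (by omega)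
    · intro i hi
      rw [e1' i (by omega) (by omega)]
      exact h.sR i (by omega)
    · intro i
      by_cases hq2 : i = q' + 1
      · subst hq2
        rw [e2]
        simp
      · by_cases hr : i = p'
        · subst hr
          rw [e3]
          exact (decide_eq_false hq2).symm
        · rw [e1' i hr hq2]
          simp [hq2]
    · intro i
      by_cases hq : i = q' + 1
      · have hr : ¬ (i = p') := by omega
        subst hq
        rw [e2]
        simp [hr]
      · by_cases hr : i = p'
        · subst hr
          rw [e3]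
          simp
        · rw [e1' i hr hq]
          simp [hr]
    · intro i hi
      by_cases hq : i = q' + 1
      · subst hq
        rw [e2]
        exact h.ba _ (by omega)
      · rw [e1' i (by omega) hq]
        exact h.ba _ (by omega)
  · left
    have e3 : tau x (q + 1) = (2, true, false, (x (q + 1 + 1)).2.2.2) := by
      have h1 : q + 1 - 1 = q := by omega
      rw [tau_eq, h.fr, h.fa, h.sM (q + 1) (by omega) (by omega)]
      simp only [h1, decide_true, Bool.true_or]
      exact phi_tf _
    refine ⟨by omega, by omega, by omega, by omega, ?_, ?_, ?_, ?_, ?_, ?_, ?_, ?_, ?_, ?_⟩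
    · intro i hi
      rw [e1 i (by omega) (by omega)]
      exact h.sL i hi
    · rw [e1 p (by omega) (by omega)]
      exact h.sW
    · intro i hi hi'
      by_cases hq : i = q + 1
      · subst hq
        rw [e3]
        exact Or.inl rfl
      · rw [e1 i hq (by omega)]
        exact h.sT i hi (by omega)
    · intro i hi hi'
      rw [e1 i (by omega) (by omega)]
      exact h.sM i (by omega) hi'
    · rw [e1 p' (by omega) (by omega)]
      exact h.sW'
    · intro i hi hi'
      by_cases hq : i = q' + 1
      · subst hq
        rw [e2]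
        exact Or.inl rfl
      · rw [e1 i (by omega) (by omega)]
        exact h.sT' i hi (by omega)
    · intro i hi
      rw [e1 i (by omega) (by omega)]
      exact h.sR i (by omega)
    · intro i
      by_cases hq : i = q' + 1
      · subst hq
        rw [e2]
        simp
      · by_cases hr : i = q + 1
        · subst hr
          rw [e3]
          simp
        · rw [e1 i hr hq]
          simp [hq, hr]
    · intro i
      by_cases hq : i = q' + 1
      · subst hq
        rw [e2]
      · by_cases hr : i = q + 1
        · subst hr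
          rw [e3]
        · rw [e1 i hr hq]
    · intro i hi
      by_cases hq : i = q' + 1
      · subst hq
        rw [e2]
        exact h.ba _ (by omega)
      · rw [e1 i (by omega) hq]
        exact h.ba _ (by omega)

/-! ### Every phase leads to a complete configuration -/

theorem K3.good {x : ℤ → St} {p q m : ℤ} (h : K3 x p q m) : ∃ T, Good T x := by
  obtain ⟨k, hk⟩ : ∃ k : ℕ, m - p < k := ⟨(m - p + 1).toNat, by omega⟩
  induction k generalizing x q m with
  | zero =>
    refine ⟨0, p, q, h.pq, h.sL, h.sW, h.sT, h.sR, h.fr, h.fa, ?_⟩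
    intro i hi
    exact h.ba i (by omega)
  | succ k ih =>
    obtain ⟨T, hT⟩ := ih h.step (by push_cast at hk; omega)
    exact ⟨T + 1, h.dom, hT⟩

theorem K2.good {x : ℤ → St} {p r q : ℤ} (h : K2 x p r q) : ∃ T, Good T x := by
  obtain ⟨k, hk⟩ : ∃ k : ℕ, q - r < k := ⟨(q - r + 1).toNat, by omega⟩
  induction k generalizing x r q with
  | zero =>
    have := h.rq
    exfalso
    push_cast at hk
    omega
  | succ k ih =>
    rcases h.step with h' | h'
    · obtain ⟨T, hT⟩ := ih h' (by push_cast at hk; omega)
      exact ⟨T + 1, h.dom, hT⟩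
    · obtain ⟨T, hT⟩ := h'.good
      exact ⟨T + 1, h.dom, hT⟩

theorem K1.good {x : ℤ → St} {p q p' q' : ℤ} (h : K1 x p q p' q') : ∃ T, Good T x := by
  obtain ⟨k, hk⟩ : ∃ k : ℕ, p' - q < k := ⟨(p' - q + 1).toNat, by omega⟩
  induction k generalizing x q q' with
  | zero =>
    have := h.qp
    exfalso
    push_cast at hk
    omega
  | succ k ih =>
    rcases h.step with ⟨_, h'⟩ | h'
    · obtain ⟨T, hT⟩ := ih h' (by push_cast at hk; omega)
      exact ⟨T + 1, h.dom, hT⟩
    · obtain ⟨T, hT⟩ := h'.good
      exact ⟨T + 1, h.dom, hT⟩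

/-! ### Complete and good configurations -/

theorem Complete.step {x : ℤ → St} (h : Complete x) : Dom x ∧ Complete (tau x) := by
  obtain ⟨p, q, h⟩ := h
  refine ⟨h.dom, p, q + 1, ?_⟩
  have h' := h.step
  exact ⟨h'.pq, h'.sL, h'.sW, h'.sT, h'.sR, h'.fr, h'.fa, fun i hi => h'.ba i (by omega)⟩

theorem Good.succ {x : ℤ → St} {T : ℕ} (h : Good T x) : Good (T + 1) x := by
  induction T generalizing x with
  | zero => exact h.step
  | succ T ih => exact ⟨h.1, ih h.2⟩

theorem Good.mono {x : ℤ → St} {T T' : ℕ} (h : Good T x) (hT : T ≤ T') : Good T' x := by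
  induction T', hT using Nat.le_induction with
  | base => exact h
  | succ n _ ih => exact ih.succ

theorem Good.dom {x : ℤ → St} {T : ℕ} (h : Good T x) : Dom x := h.succ.1

theorem Good.tau {x : ℤ → St} {T : ℕ} (h : Good T x) : Good T (tau x) := h.succ.2

/-! ### Translations -/

/-- The translation by `k`. -/
def tr (k : ℤ) (x : ℤ → St) : ℤ → St := fun i => x (i + k)

theorem mv_tr (k : ℤ) (x : ℤ → St) : mv (tr k x) = tr k (mv x) := by
  funext i
  simp only [mv, tr]
  rw [show i - 1 + k = i + k - 1 by ring, show i - 2 + k = i + k - 2 by ring,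
    show i + 1 + k = i + k + 1 by ring]

theorem tau_tr (k : ℤ) (x : ℤ → St) : tau (tr k x) = tr k (tau x) := by
  funext i
  change phi (mv (tr k x) i) = phi (mv x (i + k))
  rw [mv_tr]
  rfl

theorem Dom.tr {x : ℤ → St} (h : Dom x) (k : ℤ) : Dom (tr k x) := by
  intro i
  rw [mv_tr]
  exact h (i + k)

theorem Complete.tr {x : ℤ → St} (h : Complete x) (k : ℤ) : Complete (tr k x) := by
  obtain ⟨p, q, h⟩ := h
  have := h.pq
  refine ⟨p - k, q - k, by omega, fun i hi => h.sL _ (by omega), ?_,
    fun i hi hi' => h.sT _ (by omega) (by omega), fun i hi => h.sR _ (by omega), ?_,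
    fun i => h.fa _, fun i hi => h.ba _ (by omega)⟩
  · change (x (p - k + k)).1 = 1
    rw [sub_add_cancel]
    exact h.sW
  · intro i
    change (x (i + k)).2.1 = _
    rw [h.fr]
    by_cases hi : i + k = q
    · rw [decide_eq_true hi, decide_eq_true (by omega)]
    · rw [decide_eq_false hi, decide_eq_false (by omega)]

theorem Good.tr {x : ℤ → St} {T : ℕ} (h : Good T x) (k : ℤ) : Good T (tr k x) := by
  induction T generalizing x with
  | zero => exact Complete.tr h k
  | succ T ih =>
    refine ⟨h.1.tr k, ?_⟩
    rw [tau_tr]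
    exact ih h.2

/-! ### Gluing far apart configurations -/

/-- `x` up to `m` and `y` beyond. -/
def glue (m : ℤ) (x y : ℤ → St) : ℤ → St := fun i => if i ≤ m then x i else y i

theorem mv_glue {m : ℤ} {x y : ℤ → St} (hx : ∀ i, m - 1 ≤ i → x i = z0)
    (hy : ∀ i, i ≤ m + 1 → y i = z0) : mv (glue m x y) = glue m (mv x) (mv y) := by
  have key : ∀ i, glue m x y i = x i ∨ m < i := by
    intro i
    by_cases hi : i ≤ m
    · left
      simp [glue, hi]
    · right
      omega
  have gx : ∀ i, i ≤ m + 1 → glue m x y i = x i := by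
    intro i hi
    by_cases h : i ≤ m
    · simp [glue, h]
    · simp [glue, h]
      rw [hx i (by omega), hy i hi]
  have gy : ∀ i, m - 1 ≤ i → glue m x y i = y i := by
    intro i hi
    by_cases h : i ≤ m
    · simp [glue, h]
      rw [hx i hi, hy i (by omega)]
    · simp [glue, h]
  funext i
  by_cases hi : i ≤ m
  · have : glue m (mv x) (mv y) i = mv x i := by simp [glue, hi]
    rw [this]
    simp only [mv]
    rw [gx i (by omega), gx (i - 1) (by omega), gx (i - 2) (by omega), gx (i + 1) (by omega)]
  · have : glue m (mv x) (mv y) i = mv y i := by simp [glue, hi]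
    rw [this]
    simp only [mv]
    rw [gy i (by omega), gy (i - 1) (by omega), gy (i - 2) (by omega), gy (i + 1) (by omega)]

theorem tau_glue {m : ℤ} {x y : ℤ → St} (hx : ∀ i, m - 1 ≤ i → x i = z0)
    (hy : ∀ i, i ≤ m + 1 → y i = z0) : tau (glue m x y) = glue m (tau x) (tau y) := by
  funext i
  change phi (mv (glue m x y) i) = _
  rw [mv_glue hx hy]
  by_cases hi : i ≤ m
  · simp [glue, hi, tau]
  · simp [glue, hi, tau]

theorem phi_z0 : phi z0 = z0 := rfl

theorem tau_right {x : ℤ → St} {a : ℤ} (hx : ∀ i, a ≤ i → x i = z0) :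
    ∀ i, a + 2 ≤ i → tau x i = z0 := by
  intro i hi
  rw [tau_eq, hx i (by omega), hx (i - 1) (by omega), hx (i - 2) (by omega),
    hx (i + 1) (by omega)]
  rfl

theorem tau_left {y : ℤ → St} {b : ℤ} (hy : ∀ i, i ≤ b → y i = z0) :
    ∀ i, i ≤ b - 1 → tau y i = z0 := by
  intro i hi
  rw [tau_eq, hy i (by omega), hy (i - 1) (by omega), hy (i - 2) (by omega),
    hy (i + 1) (by omega)]
  rfl

theorem glue_good {T : ℕ} : ∀ {m : ℤ} {x y : ℤ → St}, Good T x → Good T y →
    (∀ i, m - 1 - 2 * T ≤ i → x i = z0) → (∀ i, i ≤ m + 1 + T → y i = z0) →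
    ∃ T', Good T' (glue m x y) := by
  induction T with
  | zero =>
    intro m x y hx hy hxs hys
    obtain ⟨p, q, hx⟩ := hx
    obtain ⟨p', q', hy⟩ := hy
    have h1 := hx.pq
    have h2 := hy.pq
    have hq : q < m - 1 := by
      by_contra hcon
      have := hx.fr q
      rw [hxs q (by push_cast; omega)] at this
      simp [z0] at this
    have hp : m + 1 < p' := by
      by_contra hcon
      have := hy.sW
      rw [hys p' (by push_cast; omega)] at this
      simp [z0] at this
    have gx : ∀ i, i ≤ m → glue m x y i = x i := by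
      intro i hi
      simp [glue, hi]
    have gy : ∀ i, m < i → glue m x y i = y i := by
      intro i hi
      have : ¬ i ≤ m := by omega
      simp [glue, this]
    have hK : K1 (glue m x y) p q p' q' := by
      refine ⟨h1, by omega, h2, ?_, ?_, ?_, ?_, ?_, ?_, ?_, ?_, ?_, ?_⟩
      · intro i hi
        rw [gx i (by omega)]
        exact hx.sL i hi
      · rw [gx p (by omega)]
        exact hx.sW
      · intro i hi hi'
        rw [gx i (by omega)]
        exact hx.sT i hi hi'
      · intro i hi hi'
        by_cases h : i ≤ m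
        · rw [gx i h]
          exact hx.sR i hi
        · rw [gy i (by omega)]
          exact hy.sL i hi'
      · rw [gy p' (by omega)]
        exact hy.sW
      · intro i hi hi'
        rw [gy i (by omega)]
        exact hy.sT i hi hi'
      · intro i hi
        rw [gy i (by omega)]
        exact hy.sR i hi
      · intro i
        by_cases h : i ≤ m
        · have h' : ¬ (i = q') := by omega
          rw [gx i h, hx.fr]
          simp [h']
        · have h' : ¬ (i = q) := by omega
          rw [gy i (by omega), hy.fr]
          simp [h']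
      · intro i
        by_cases h : i ≤ m
        · rw [gx i h]
          exact hx.fa i
        · rw [gy i (by omega)]
          exact hy.fa i
      · intro i hi
        rw [gy i (by omega)]
        exact hy.ba i (by omega)
    exact hK.good
  | succ T ih =>
    intro m x y hx hy hxs hys
    have e := tau_glue (m := m) (x := x) (y := y) (fun i hi => hxs i (by push_cast; omega))
      (fun i hi => hys i (by push_cast; omega))
    have e' := mv_glue (m := m) (x := x) (y := y) (fun i hi => hxs i (by push_cast; omega))
      (fun i hi => hys i (by push_cast; omega))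
    obtain ⟨T', hT'⟩ := ih (m := m) hx.2 hy.2
      (fun i hi => tau_right hxs i (by push_cast; omega))
      (fun i hi => tau_left hys i (by push_cast; omega))
    refine ⟨T' + 1, ?_, ?_⟩
    · intro i
      rw [e']
      by_cases h : i ≤ m
      · simp only [glue, h, if_true]
        exact hx.1 i
      · simp only [glue, h, if_false]
        exact hy.1 i
    · rw [e]
      exact hT'

/-! ### The subshift -/

/-- The finite good configurations. -/
def FF : Set (ℤ → St) :=
  {x | (∃ T, Good T x) ∧ ∃ L : ℤ, (∀ i, L ≤ i → x i = z0) ∧ ∀ i, i ≤ - L → x i = z0}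

/-- The subshift: the closure of the finite good configurations. -/
def XX : Set (ℤ → St) := closure FF

theorem tr_mem {x : ℤ → St} (h : x ∈ FF) (k : ℤ) : tr k x ∈ FF := by
  obtain ⟨⟨T, hT⟩, L, h1, h2⟩ := h
  refine ⟨⟨T, hT.tr k⟩, L + |k|, fun i hi => h1 _ ?_, fun i hi => h2 _ ?_⟩
  · have := neg_abs_le k
    omega
  · have := le_abs_self k
    omega

theorem tau_mem {x : ℤ → St} (h : x ∈ FF) : tau x ∈ FF := by
  obtain ⟨⟨T, hT⟩, L, h1, h2⟩ := h
  refine ⟨⟨T, hT.tau⟩, L + 2, fun i hi => ?_, fun i hi => ?_⟩
  · exact tau_right h1 i hi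
  · exact tau_left h2 i (by omega)

theorem dom_mem {x : ℤ → St} (h : x ∈ FF) : Dom x := by
  obtain ⟨⟨T, hT⟩, _⟩ := h
  exact hT.dom

theorem continuous_tr (k : ℤ) : Continuous (tr k) :=
  continuous_pi fun i => continuous_apply (i + k)

theorem continuous_mv (i : ℤ) : Continuous fun x : ℤ → St => mv x i := by
  have : (fun x : ℤ → St => mv x i) =
      (fun t : St × St × St × St => (t.1.1, t.2.1.2.1, t.2.2.1.2.2.1, t.2.2.2.2.2.2)) ∘
        (fun x : ℤ → St => (x i, x (i - 1), x (i - 2), x (i + 1))) := rfl
  rw [this]
  refine Continuous.comp (continuous_of_discreteTopology) ?_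
  exact (continuous_apply i).prodMk ((continuous_apply (i - 1)).prodMk
    ((continuous_apply (i - 2)).prodMk (continuous_apply (i + 1))))

theorem continuous_tau : Continuous tau :=
  continuous_pi fun i =>
    (continuous_of_discreteTopology (f := phi)).comp (continuous_mv i)

theorem tr_XX {x : ℤ → St} (h : x ∈ XX) (k : ℤ) : tr k x ∈ XX :=
  map_mem_closure (continuous_tr k) h fun _ hy => tr_mem hy k

theorem tau_XX {x : ℤ → St} (h : x ∈ XX) : tau x ∈ XX :=
  map_mem_closure continuous_tau h fun _ hy => tau_mem hy

theorem dom_XX {x : ℤ → St} (h : x ∈ XX) : Dom x := by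
  intro i
  have hc : IsClosed {x : ℤ → St | ok (mv x i) = true} := by
    have : Continuous fun x : ℤ → St => ok (mv x i) :=
      (continuous_of_discreteTopology (f := ok)).comp (continuous_mv i)
    exact isClosed_eq this continuous_const
  have : closure FF ⊆ {x : ℤ → St | ok (mv x i) = true} :=
    closure_minimal (fun y hy => dom_mem hy i) hc
  exact this h

theorem tau_inj {x y : ℤ → St} (hx : x ∈ XX) (hy : y ∈ XX) (h : tau x = tau y) : x = y := by
  have key : ∀ i, mv x i = mv y i := fun i =>
    phi_inj _ _ (dom_XX hx i) (dom_XX hy i) (congrFun h i)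
  funext i
  have h1 := congrArg (fun t : St => t.1) (key i)
  have h2 := congrArg (fun t : St => t.2.1) (key (i + 1))
  have h3 := congrArg (fun t : St => t.2.2.1) (key (i + 2))
  have h4 := congrArg (fun t : St => t.2.2.2) (key (i - 1))
  simp only [mv, add_sub_cancel_right, sub_add_cancel] at h1 h2 h3 h4
  exact Prod.ext h1 (Prod.ext h2 (Prod.ext h3 h4))

/-- The newborn object. -/
def nb : ℤ → St := fun i => if i = 0 then (1, true, false, false) else z0

theorem nb_mem : nb ∈ FF := by
  refine ⟨⟨0, 0, 0, le_rfl, ?_, ?_, ?_, ?_, ?_, ?_, ?_⟩, 1, ?_, ?_⟩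
  · intro i hi
    have : ¬ (i = 0) := by omega
    simp [nb, this, z0]
  · simp [nb]
  · intro i hi hi'
    omega
  · intro i hi
    have : ¬ (i = 0) := by omega
    simp [nb, this, z0]
  · intro i
    by_cases h : i = 0
    · simp [nb, h]
    · simp [nb, h, z0]
  · intro i
    by_cases h : i = 0
    · simp [nb, h]
    · simp [nb, h, z0]
  · intro i hi
    by_cases h : i = 0
    · simp [nb, h]
    · simp [nb, h, z0]
  · intro i hi
    have : ¬ (i = 0) := by omega
    simp [nb, this]
  · intro i hi
    have : ¬ (i = 0) := by omega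
    simp [nb, this]

theorem nb_not_image {x : ℤ → St} (hx : x ∈ XX) : tau x ≠ nb := by
  intro h
  have h0 := congrFun h 0
  exact phi_ne _ (dom_XX hx 0) (h0.trans (by simp [nb]))

/-! ### Mixing -/

theorem exists_window {U : Set (ℤ → St)} (hU : IsOpen U) {x : ℤ → St} (hx : x ∈ U) :
    ∃ K : ℤ, ∀ z : ℤ → St, (∀ i, -K ≤ i → i ≤ K → z i = x i) → z ∈ U := by
  obtain ⟨I, u, hu, hI⟩ := isOpen_pi_iff.mp hU x hx
  refine ⟨∑ i ∈ I, |i|, fun z hz => hI ?_⟩
  intro i hi
  have hle : |i| ≤ ∑ i ∈ I, |i| :=
    Finset.single_le_sum (f := fun i : ℤ => |i|) (fun j _ => abs_nonneg j) hi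
  have h1 := neg_abs_le i
  have h2 := le_abs_self i
  rw [hz i (by omega) (by omega)]
  exact (hu i hi).2

theorem iterate_shift (n : ℕ) (x : ℤ → St) : shift^[n] x = tr n x := by
  induction n generalizing x with
  | zero =>
    funext i
    simp [tr]
  | succ n ih =>
    rw [Function.iterate_succ_apply, ih]
    funext i
    simp only [tr, shift]
    congr 1
    push_cast
    ring

theorem mixing_XX : IsMixing XX := by
  intro U V hU hV hUX hVX
  obtain ⟨x, hxU, hx⟩ := mem_closure_iff.mp hUX.some_mem.2 U hU hUX.some_mem.1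
  obtain ⟨y, hyV, hy⟩ := mem_closure_iff.mp hVX.some_mem.2 V hV hVX.some_mem.1
  obtain ⟨⟨T1, hT1⟩, L1, hx1, hx2⟩ := hx
  obtain ⟨⟨T2, hT2⟩, L2, hy1, hy2⟩ := hy
  obtain ⟨K1, hK1⟩ := exists_window hU hxU
  obtain ⟨K2, hK2⟩ := exists_window hV hyV
  set T := max T1 T2 with hT
  have gx : Good T x := hT1.mono (le_max_left _ _)
  have gy : Good T y := hT2.mono (le_max_right _ _)
  set m : ℤ := |K1| + |L1| + 1 + 2 * T with hm
  refine ⟨(m + 2 + T + |K2| + |L2|).toNat, fun n hn => ?_⟩
  have hn' : m + 2 + T + |K2| + |L2| ≤ n := by omega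
  have a1 := le_abs_self K1
  have a2 := le_abs_self L1
  have a3 := le_abs_self K2
  have a4 := le_abs_self L2
  have b1 := abs_nonneg K1
  have b2 := abs_nonneg L1
  have b3 := abs_nonneg K2
  have b4 := abs_nonneg L2
  have c2 := neg_abs_le L1
  have c4 := neg_abs_le L2
  obtain ⟨T', hT'⟩ := glue_good (T := T) (m := m) (x := x) (y := tr (-n) y) gx (gy.tr (-n))
    (fun i hi => hx1 i (by omega)) (fun i hi => hy2 _ (by omega))
  set z := glue m x (tr (-n) y) with hz
  have hzF : z ∈ FF := by
    refine ⟨⟨T', hT'⟩, |L1| + |L2| + n + |m|, fun i hi => ?_, fun i hi => ?_⟩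
    · have h1 := le_abs_self m
      have h2 := abs_nonneg m
      by_cases h : i ≤ m
      · simp only [hz, glue, h, if_true]
        exact hx1 i (by omega)
      · simp only [hz, glue, h, if_false]
        exact hy1 _ (by omega)
    · have h1 := le_abs_self m
      have h2 := abs_nonneg m
      have h3 := neg_abs_le m
      have h : i ≤ m := by omega
      simp only [hz, glue, h, if_true]
      exact hx2 i (by omega)
  refine ⟨tr n z, ⟨z, ⟨hK1 z fun i hi hi' => ?_, subset_closure hzF⟩, iterate_shift n z⟩,
    hK2 _ fun i hi hi' => ?_, tr_XX (subset_closure hzF) n⟩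
  · have h : i ≤ m := by omega
    simp only [hz, glue, h, if_true]
  · have h : ¬ (i + n ≤ m) := by omega
    change glue m x (tr (-n) y) (i + n) = y i
    simp only [glue, h, if_false, tr]
    congr 1
    ring

/-- **Result.** There is a topologically mixing subshift over `ℤ` on a finite alphabet which is
not surjunctive: it carries an injective cellular automaton which is not surjective. -/
theorem result : ∃ (A : Type) (_ : Fintype A) (_ : TopologicalSpace A) (_ : DiscreteTopology A)
    (X : Set (ℤ → A)), IsSubshift X ∧ IsMixing X ∧ ¬ IsSurjunctive X := by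
  refine ⟨St, inferInstance, inferInstance, inferInstance, XX, ⟨isClosed_closure, ?_⟩,
    mixing_XX, ?_⟩
  · apply Set.Subset.antisymm
    · rintro _ ⟨x, hx, rfl⟩
      exact tr_XX hx 1
    · intro x hx
      refine ⟨tr (-1) x, tr_XX hx (-1), ?_⟩
      funext i
      simp [shift, tr]
  · intro h
    let τ : XX → XX := fun x => ⟨tau x, tau_XX x.2⟩
    have hc : IsCellularAutomaton XX τ := by
      refine ⟨Continuous.subtype_mk (continuous_tau.comp continuous_subtype_val) _, ?_⟩
      intro x y hxy
      change tau y = shift (tau x)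
      rw [hxy]
      exact tau_tr 1 x
    have hi : Function.Injective τ := by
      intro x y hxy
      exact Subtype.ext (tau_inj x.2 y.2 (congrArg Subtype.val hxy))
    obtain ⟨x, hx⟩ := h τ hc hi ⟨nb, subset_closure nb_mem⟩
    exact nb_not_image x.2 (congrArg Subtype.val hx)

end Pool.Agent.Results.MP_451208_an.NotSurjunctive
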